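import Mathlib
import Pool.Agent.LeoG.UpStmts

/-!
# LEOG PSH: push forward of the volume at a real place with `m > 0`

The one variable lemmas are those of `Helper74_LeoC/Psn.lean` (helper74).
-/

set_option autoImplicit false

open MeasureTheory Set
open Pool.Agent.LeoK Pool.Agent.LeoG

open scoped Classical ENNReal

namespace Pool.Agent.LeoG.H11

/-! ## One variable -/

theorem lint_scale (a : ℝ) (ha : a ≠ 0) (f : ℝ → ℝ≥0∞) :
    ∫⁻ x, f x = ∫⁻ x, ENNReal.ofReal |a| * f (a * x) := by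
  have h := lintegral_image_eq_lintegral_abs_deriv_mul (s := univ) (f := fun x : ℝ => a * x)
    (f' := fun _ => a) MeasurableSet.univ
    (fun x _ => by
      have := ((hasDerivAt_id x).const_mul a).hasDerivWithinAt (s := univ)
      simp only [id, mul_one] at this
      exact this)
    (fun x _ y _ hxy => mul_left_cancel₀ ha hxy) f
  have him : (fun x : ℝ => a * x) '' univ = univ := by
    rw [image_univ]
    exact (Equiv.mulLeft₀ a ha).surjective.range_eq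
  rw [him, setLIntegral_univ, setLIntegral_univ] at h
  exact h

theorem lint_affine (a b : ℝ) (ha : a ≠ 0) (f : ℝ → ℝ≥0∞) :
    ∫⁻ x, f x = ∫⁻ x, ENNReal.ofReal |a| * f (a * x + b) := by
  rw [← lintegral_add_right_eq_self f b, lint_scale a ha]

theorem lint_ae (g : ℝ → ℝ≥0∞) : ∫⁻ x, g x = ∫⁻ x in ({0}ᶜ : Set ℝ), g x := by
  rw [← setLIntegral_univ]
  refine setLIntegral_congr ?_
  have h : ({0}ᶜ : Set ℝ) ∈ ae (volume : Measure ℝ) := compl_mem_ae_iff.mpr (by simp)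
  filter_upwards [h] with x hx
  exact propext ⟨fun _ => hx, fun _ => mem_univ x⟩

theorem lint_cube (f : ℝ → ℝ≥0∞) :
    ∫⁻ x, f (x ^ 3) = ∫⁻ y, ENNReal.ofReal (1 / 3 * |y| ^ (-(2 / 3) : ℝ)) * f y := by
  have h := lintegral_image_eq_lintegral_abs_deriv_mul (s := ({0}ᶜ : Set ℝ))
    (f := fun x : ℝ => x ^ 3)
    (f' := fun x => 3 * x ^ 2) (measurableSet_singleton 0).compl
    (fun x _ => by simpa using (hasDerivAt_pow 3 x).hasDerivWithinAt)
    (fun x _ y _ hxy => (Odd.strictMono_pow (by decide : Odd 3)).injective hxy)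
    (fun y => ENNReal.ofReal (1 / 3 * |y| ^ (-(2 / 3) : ℝ)) * f y)
  have him : (fun x : ℝ => x ^ 3) '' ({0}ᶜ : Set ℝ) = ({0}ᶜ : Set ℝ) := by
    ext y
    simp only [mem_image, mem_compl_iff, mem_singleton_iff]
    constructor
    · rintro ⟨x, hx, rfl⟩
      exact pow_ne_zero 3 hx
    · intro hy
      obtain ⟨x, hx⟩ : ∃ x : ℝ, x ^ 3 = y := by
        have hs : Function.Surjective (fun x : ℝ => x ^ 3) := by
          refine Continuous.surjective (by fun_prop) ?_ ?_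
          · exact Filter.tendsto_pow_atTop (by norm_num)
          · have h3 := Filter.tendsto_pow_atTop (α := ℝ) (n := 3) (by norm_num)
            have h4 := Filter.tendsto_neg_atTop_atBot.comp (h3.comp Filter.tendsto_neg_atBot_atTop)
            refine h4.congr fun x => ?_
            simp only [Function.comp]
            ring
        exact hs y
      exact ⟨x, fun h0 => hy (by rw [← hx, h0]; norm_num), hx⟩
  rw [him] at h
  rw [lint_ae (fun x => f (x ^ 3)),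
    lint_ae (fun y => ENNReal.ofReal (1 / 3 * |y| ^ (-(2 / 3) : ℝ)) * f y), h]
  refine setLIntegral_congr_fun (measurableSet_singleton 0).compl fun x hx => ?_
  have hx0 : x ≠ 0 := hx
  have hp : (0 : ℝ) < x ^ 2 := by positivity
  rw [← mul_assoc, ← ENNReal.ofReal_mul (abs_nonneg _)]
  have h1 : |3 * x ^ 2| * (1 / 3 * |x ^ 3| ^ (-(2 / 3) : ℝ)) = 1 := by
    have hax : 0 < |x| := abs_pos.mpr hx0
    rw [abs_mul, abs_pow, abs_pow, ← Real.rpow_natCast (|x|) 3, ← Real.rpow_mul hax.le,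
      show ((3 : ℕ) : ℝ) * -(2 / 3) = -((2 : ℕ) : ℝ) by push_cast; ring, Real.rpow_neg hax.le,
      Real.rpow_natCast]
    have h3 : |(3 : ℝ)| = 3 := abs_of_pos (by norm_num)
    rw [h3]
    field_simp
  rw [h1, ENNReal.ofReal_one, one_mul]


theorem lint_Ioi_pow (n : ℕ) (hn : n ≠ 0) (a : ℝ) (ha : 0 < a) (f : ℝ → ℝ≥0∞) :
    ∫⁻ t in Ioi (0 : ℝ), f t =
      ∫⁻ x in Ioi (0 : ℝ), ENNReal.ofReal (a * (n * x ^ (n - 1))) * f (a * x ^ n) := by
  have h := lintegral_image_eq_lintegral_abs_deriv_mul (s := Ioi (0 : ℝ))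
    (f := fun x : ℝ => a * x ^ n)
    (f' := fun x => a * (n * x ^ (n - 1))) measurableSet_Ioi
    (fun x _ => ((hasDerivAt_pow n x).const_mul a).hasDerivWithinAt)
    (fun x hx y hy hxy => by
      have h1 : x ^ n = y ^ n := mul_left_cancel₀ ha.ne' hxy
      exact (pow_left_inj₀ (le_of_lt hx) (le_of_lt hy) hn).mp h1) f
  have him : (fun x : ℝ => a * x ^ n) '' Ioi (0 : ℝ) = Ioi (0 : ℝ) := by
    ext y
    simp only [mem_image, mem_Ioi]
    constructor
    · rintro ⟨x, hx, rfl⟩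
      positivity
    · intro hy
      refine ⟨(y / a) ^ ((n : ℝ)⁻¹), by positivity, ?_⟩
      rw [Real.rpow_inv_natCast_pow (by positivity) hn]
      field_simp
  rw [him] at h
  rw [h]
  refine setLIntegral_congr_fun measurableSet_Ioi fun x hx => ?_
  have hx0 : (0 : ℝ) < x := hx
  rw [abs_of_nonneg (by positivity)]

/-- Polar coordinates for a function of the norm. -/
theorem lint_polar (f : ℝ → ℝ≥0∞) (hf : Measurable f) :
    ∫⁻ a : ℝ, ∫⁻ b : ℝ, f (a ^ 2 + b ^ 2) =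
      ∫⁻ t in Ioi (0 : ℝ), ENNReal.ofReal Real.pi * f t := by
  have hm : Measurable fun p : ℝ × ℝ => f (p.1 ^ 2 + p.2 ^ 2) := by fun_prop
  rw [← lintegral_prod (μ := volume) (ν := volume) (fun p : ℝ × ℝ => f (p.1 ^ 2 + p.2 ^ 2))
    hm.aemeasurable, ← Measure.volume_eq_prod, ← lintegral_comp_polarCoord_symm]
  have h1 : ∀ p : ℝ × ℝ, (polarCoord.symm p).1 ^ 2 + (polarCoord.symm p).2 ^ 2 = p.1 ^ 2 := by
    intro p
    simp only [polarCoord_symm_apply]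
    have := Real.sin_sq_add_cos_sq p.2
    linear_combination p.1 ^ 2 * this
  simp only [h1, polarCoord_target, smul_eq_mul]
  rw [Measure.volume_eq_prod, ← Measure.prod_restrict, lintegral_prod _ (by fun_prop),
    lint_Ioi_pow 2 (by norm_num) 1 (by norm_num) (fun t => ENNReal.ofReal Real.pi * f t)]
  refine setLIntegral_congr_fun measurableSet_Ioi fun r hr => ?_
  have hr0 : (0 : ℝ) < r := hr
  simp only [lintegral_const, Measure.restrict_apply MeasurableSet.univ, univ_inter,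
    Real.volume_Ioo, one_mul]
  have h2 : ENNReal.ofReal (Real.pi - -Real.pi) = 2 * ENNReal.ofReal Real.pi := by
    rw [show Real.pi - -Real.pi = 2 * Real.pi by ring, ENNReal.ofReal_mul (by norm_num)]
    norm_num
  have h3 : ENNReal.ofReal ((2 : ℕ) * r ^ (2 - 1)) = 2 * ENNReal.ofReal r := by
    rw [ENNReal.ofReal_mul (by norm_num)]
    norm_num
  rw [h2, h3]
  ring

/-! ## The size -/

/-- The size as a function of `A`, `δ` and `m`. -/
noncomputable def szR (a e m : ℝ) : ℝ :=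
  (|(a + e) / 2| ^ (2 / 3 : ℝ) + |(a - e) / 2| ^ (2 / 3 : ℝ)) / (2 * (m / 27) ^ (1 / 6 : ℝ))

/-- Leading coefficient of the cubic covariant. -/
def GG (w : Fin 4 → ℝ) : ℝ := 2 * w 1 ^ 3 - 9 * w 0 * w 1 * w 2 + 27 * w 0 ^ 2 * w 3

theorem hz_eq (w : Fin 4 → ℝ) :
    hz w 1 0 = szR (w 0) (GG w / Real.sqrt (27 * mm w)) (mm w) := by
  have hg : gval w 1 0 = w 0 := by simp [gval]
  have hG : gcov w 1 0 = GG w := by simp [gcov, GG]
  unfold hz szR
  rw [hg, hG]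

/-! ## Iterated integrals -/

theorem lint_fin4 (F : (Fin 4 → ℝ) → ℝ≥0∞) (hF : Measurable F) :
    ∫⁻ w, F w = ∫⁻ a : ℝ, ∫⁻ b : ℝ, ∫⁻ c : ℝ, ∫⁻ d : ℝ, F ![a, b, c, d] := by
  have h1 : ∀ (n : ℕ) (G : (Fin (n + 1) → ℝ) → ℝ≥0∞), Measurable G →
      ∫⁻ w, G w = ∫⁻ a : ℝ, ∫⁻ v : Fin n → ℝ, G (Fin.cons a v) := by
    intro n G hG
    have e := (volume_preserving_piFinSuccAbove (fun _ : Fin (n + 1) => ℝ) 0).symm
    rw [← e.lintegral_comp_emb (MeasurableEquiv.measurableEmbedding _) G, Measure.volume_eq_prod,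
      lintegral_prod]
    · refine lintegral_congr fun a => lintegral_congr fun v => ?_
      have h2 : (MeasurableEquiv.piFinSuccAbove (fun _ : Fin (n + 1) => ℝ) 0).symm (a, v) =
          Fin.cons a v := by
        have h3 := Fin.insertNth_zero' (β := ℝ) a v
        exact h3
      rw [h2]
    · exact (hG.comp (MeasurableEquiv.measurable _)).aemeasurable
  have hc : ∀ (n : ℕ) (G : (Fin (n + 1) → ℝ) → ℝ≥0∞), Measurable G → ∀ a : ℝ,
      Measurable fun v : Fin n → ℝ => G (Fin.cons a v) := by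
    intro n G hG a
    exact hG.comp (Continuous.measurable (by fun_prop))
  rw [h1 3 F hF]
  refine lintegral_congr fun a => ?_
  rw [h1 2 _ (hc 3 F hF a)]
  refine lintegral_congr fun b => ?_
  rw [h1 1 _ (hc 2 _ (hc 3 F hF a) b)]
  refine lintegral_congr fun c => ?_
  rw [h1 0 _ (hc 1 _ (hc 2 _ (hc 3 F hF a) b) c)]
  refine lintegral_congr fun d => ?_
  have hv : (volume : Measure (Fin 0 → ℝ)) univ = 1 := by simp [volume_pi]
  rw [lintegral_unique, hv, mul_one]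
  exact congrArg (fun z : Fin 0 → ℝ => F (Fin.cons a (Fin.cons b (Fin.cons c (Fin.cons d z)))))
    (Subsingleton.elim _ _)

theorem msr1 {α β : Type} [MeasurableSpace α] [MeasurableSpace β] (ν : Measure β) [SFinite ν]
    {f : α → β → ℝ≥0∞} (hf : Measurable (Function.uncurry f)) :
    Measurable fun a => ∫⁻ b, f a b ∂ν :=
  Measurable.lintegral_prod_right' (f := Function.uncurry f) hf

/-! ## The densities -/

/-- The integrand in the coordinates `B / (3A)`, `A`, `G`, `m`. -/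
noncomputable def Psi (h : ℝ × ℝ × ℝ → ℝ≥0∞) (s a g m : ℝ) : ℝ≥0∞ :=
  if 0 < m then h (s, szR a (g / Real.sqrt (27 * m)) m, m) else 0

/-- The integrand in the coordinates `B / (3A)`, `m`, `A`, `δ`. -/
noncomputable def Tht (h : ℝ × ℝ × ℝ → ℝ≥0∞) (s m a e : ℝ) : ℝ≥0∞ :=
  if 0 < m then
    ENNReal.ofReal (1 / 108 * Real.sqrt (27 * m) * (m * |a ^ 2 - e ^ 2| / 4) ^ (-(2 / 3) : ℝ)) *
      h (s, szR a e m, m)
  else 0

theorem Psi_meas (h : ℝ × ℝ × ℝ → ℝ≥0∞) (hh : Measurable h) :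
    Measurable fun p : ℝ × ℝ × ℝ × ℝ => Psi h p.1 p.2.1 p.2.2.1 p.2.2.2 := by
  unfold Psi szR
  refine Measurable.ite (measurableSet_lt (by fun_prop) (by fun_prop)) (hh.comp ?_)
    measurable_const
  refine Measurable.prodMk (by fun_prop) (Measurable.prodMk ?_ (by fun_prop))
  fun_prop

theorem Tht_meas (h : ℝ × ℝ × ℝ → ℝ≥0∞) (hh : Measurable h) :
    Measurable fun p : ℝ × ℝ × ℝ × ℝ => Tht h p.1 p.2.1 p.2.2.1 p.2.2.2 := by
  unfold Tht szR
  refine Measurable.ite (measurableSet_lt (by fun_prop) (by fun_prop))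
    (Measurable.mul (by fun_prop) (hh.comp ?_)) measurable_const
  refine Measurable.prodMk (by fun_prop) (Measurable.prodMk ?_ (by fun_prop))
  fun_prop

/-- The invariants after the substitution. -/
theorem mm_sub (a t c d : ℝ) :
    mm ![a, 3 * a * t, c + 3 * a * t ^ 2, d + (c * t + a * t ^ 3)] =
      4 * a * c ^ 3 + 27 * a ^ 2 * d ^ 2 := by
  simp [mm, dsc]
  ring

theorem GG_sub (a t c d : ℝ) :
    GG ![a, 3 * a * t, c + 3 * a * t ^ 2, d + (c * t + a * t ^ 3)] = 27 * a ^ 2 * d := by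
  simp [GG]
  ring

/-- The inner triple integral. -/
theorem inner (h : ℝ × ℝ × ℝ → ℝ≥0∞) (hh : Measurable h) (a : ℝ) (ha : a ≠ 0) :
    (∫⁻ b : ℝ, ∫⁻ c : ℝ, ∫⁻ d : ℝ, Psi h (b / (3 * a)) a (GG ![a, b, c, d]) (mm ![a, b, c, d])) =
      ∫⁻ s : ℝ, ∫⁻ m : ℝ, ∫⁻ e : ℝ, Tht h s m a e := by
  have h3a : 3 * a ≠ 0 := by positivity
  rw [lint_scale (3 * a) h3a]
  refine lintegral_congr fun s => ?_
  have hs : 3 * a * s / (3 * a) = s := by field_simp
  rw [hs]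
  -- translation
  have h1 : (∫⁻ c : ℝ, ∫⁻ d : ℝ, Psi h s a (GG ![a, 3 * a * s, c, d]) (mm ![a, 3 * a * s, c, d])) =
      ∫⁻ c : ℝ, ∫⁻ d : ℝ, Psi h s a (27 * a ^ 2 * d) (4 * a * c ^ 3 + 27 * a ^ 2 * d ^ 2) := by
    rw [← lintegral_add_right_eq_self _ (3 * a * s ^ 2)]
    refine lintegral_congr fun c => ?_
    rw [← lintegral_add_right_eq_self _ (c * s + a * s ^ 3)]
    refine lintegral_congr fun d => ?_
    rw [mm_sub, GG_sub]
  rw [h1]
  have hP := Psi_meas h hh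
  -- swap c and d
  rw [lintegral_lintegral_swap]
  swap
  · exact (hP.comp (f := fun p : ℝ × ℝ =>
      ((s, a, 27 * a ^ 2 * p.2, 4 * a * p.1 ^ 3 + 27 * a ^ 2 * p.2 ^ 2) : ℝ × ℝ × ℝ × ℝ))
        (by fun_prop)).aemeasurable
  -- the cube and the linear map
  have h4a : (1 / (4 * a)) ≠ 0 := by positivity
  have h2 : ∀ d : ℝ, (∫⁻ c : ℝ, Psi h s a (27 * a ^ 2 * d) (4 * a * c ^ 3 + 27 * a ^ 2 * d ^ 2)) =
      ∫⁻ m : ℝ, ENNReal.ofReal |1 / (4 * a)| *
        (ENNReal.ofReal (1 / 3 * |(m - 27 * a ^ 2 * d ^ 2) / (4 * a)| ^ (-(2 / 3) : ℝ)) *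
          Psi h s a (27 * a ^ 2 * d) m) := by
    intro d
    rw [lint_cube (fun E => Psi h s a (27 * a ^ 2 * d) (4 * a * E + 27 * a ^ 2 * d ^ 2)),
      lint_affine (1 / (4 * a)) (-(27 * a ^ 2 * d ^ 2) / (4 * a)) h4a]
    refine lintegral_congr fun m => ?_
    have e1 : 1 / (4 * a) * m + -(27 * a ^ 2 * d ^ 2) / (4 * a) =
        (m - 27 * a ^ 2 * d ^ 2) / (4 * a) := by ring
    have e2 : 4 * a * ((m - 27 * a ^ 2 * d ^ 2) / (4 * a)) + 27 * a ^ 2 * d ^ 2 = m := by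
      field_simp
      ring
    rw [e1, e2]
  simp only [h2]
  -- swap d and m
  rw [lintegral_lintegral_swap]
  swap
  · refine Measurable.aemeasurable ?_
    refine Measurable.mul (by fun_prop) (Measurable.mul (by fun_prop) ?_)
    exact (hP.comp (f := fun p : ℝ × ℝ =>
      ((s, a, 27 * a ^ 2 * p.1, p.2) : ℝ × ℝ × ℝ × ℝ)) (by fun_prop))
  rw [← lintegral_const_mul']
  swap
  · exact ENNReal.ofReal_ne_top
  refine lintegral_congr fun m => ?_
  rw [← lintegral_const_mul']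
  swap
  · exact ENNReal.ofReal_ne_top
  rcases le_or_gt m 0 with hm | hm
  · simp [Psi, Tht, not_lt.mpr hm]
  -- scale d
  have hy : 0 < 27 * m := by linarith
  have hy2 : 0 < Real.sqrt (27 * m) := Real.sqrt_pos.mpr hy
  have ha2 : 0 < a ^ 2 := by positivity
  rw [lint_scale (Real.sqrt (27 * m) / (27 * a ^ 2)) (by positivity)]
  refine lintegral_congr fun e => ?_
  have e3 : 27 * a ^ 2 * (Real.sqrt (27 * m) / (27 * a ^ 2) * e) = Real.sqrt (27 * m) * e := by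
    field_simp
  have e4 : Real.sqrt (27 * m) * e / Real.sqrt (27 * m) = e :=
    mul_div_cancel_left₀ e hy2.ne'
  simp only [Psi, Tht, hm, if_true, e3, e4]
  have e5 : (m - 27 * a ^ 2 * (Real.sqrt (27 * m) / (27 * a ^ 2) * e) ^ 2) / (4 * a) =
      m * (a ^ 2 - e ^ 2) / (4 * a ^ 3) := by
    have hsq : Real.sqrt (27 * m) ^ 2 = 27 * m := Real.sq_sqrt hy.le
    rw [mul_pow, div_pow, hsq]
    field_simp
  have hae : 0 < |a| := abs_pos.mpr ha
  have ht : 0 ≤ |a ^ 2 - e ^ 2| := abs_nonneg _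
  have e6 : |m * (a ^ 2 - e ^ 2) / (4 * a ^ 3)| ^ (-(2 / 3) : ℝ) =
      (m * |a ^ 2 - e ^ 2| / 4) ^ (-(2 / 3) : ℝ) * |a| ^ 2 := by
    have e7 : |m * (a ^ 2 - e ^ 2) / (4 * a ^ 3)| = (m * |a ^ 2 - e ^ 2| / 4) * (|a| ^ 3)⁻¹ := by
      rw [abs_div, abs_mul, abs_of_pos hm, abs_mul, abs_pow]
      rw [abs_of_pos (by norm_num : (0 : ℝ) < 4)]
      field_simp
    rw [e7, Real.mul_rpow (by positivity) (by positivity)]
    have e8 : ((|a| ^ 3)⁻¹) ^ (-(2 / 3) : ℝ) = |a| ^ 2 := by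
      rw [Real.inv_rpow (by positivity), ← Real.rpow_neg (by positivity), neg_neg,
        ← Real.rpow_natCast, ← Real.rpow_natCast, ← Real.rpow_mul hae.le]
      congr 1
      norm_num
    rw [e8]
  rw [e5, e6, ← mul_assoc, ← mul_assoc, ← mul_assoc, ← ENNReal.ofReal_mul (abs_nonneg _),
    ← ENNReal.ofReal_mul (by positivity), ← ENNReal.ofReal_mul (by positivity)]
  congr 2
  rw [abs_mul, abs_div, abs_mul, abs_of_pos hy2, abs_div, abs_one, abs_mul, abs_pow,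
    abs_of_pos (by norm_num : (0 : ℝ) < 4), abs_of_pos (by norm_num : (0 : ℝ) < 3),
    abs_of_pos (by norm_num : (0 : ℝ) < 27)]
  field_simp
  ring

/-- rotation by the matrix `(1, 1; 1, -1)` -/
theorem lint_rot (T : ℝ → ℝ → ℝ≥0∞) (hT : Measurable fun p : ℝ × ℝ => T p.1 p.2) :
    (∫⁻ a : ℝ, ∫⁻ e : ℝ, T a e) = ∫⁻ p : ℝ, ∫⁻ q : ℝ, 2 * T (p + q) (p - q) := by
  rw [lintegral_lintegral_swap hT.aemeasurable]
  have h1 : ∀ e : ℝ, (∫⁻ a : ℝ, T a e) = ∫⁻ p : ℝ, 2 * T (2 * p + -e) e := by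
    intro e
    rw [lint_affine 2 (-e) (by norm_num)]
    refine lintegral_congr fun p => ?_
    rw [abs_of_pos (by norm_num : (0 : ℝ) < 2)]
    norm_num
  simp only [h1]
  rw [lintegral_lintegral_swap]
  · refine lintegral_congr fun p => ?_
    rw [lint_affine (-1) p (by norm_num)]
    refine lintegral_congr fun q => ?_
    have e1 : 2 * p + -(-1 * q + p) = p + q := by ring
    have e2 : -1 * q + p = p - q := by ring
    rw [e1, e2, abs_neg, abs_one, ENNReal.ofReal_one, one_mul]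
  · refine Measurable.aemeasurable ?_
    refine Measurable.mul measurable_const ?_
    exact hT.comp (f := fun z : ℝ × ℝ => ((2 * z.2 + -z.1, z.1) : ℝ × ℝ)) (by fun_prop)

theorem mul4 (X A B C : ℝ) (Z : ℝ≥0∞) (hA : 0 ≤ A) (hB : 0 ≤ B) (h : 2 * X = A * B * C) :
    2 * (ENNReal.ofReal X * Z) =
      ENNReal.ofReal A * (ENNReal.ofReal B * (ENNReal.ofReal C * Z)) := by
  have e4 : (2 : ℝ≥0∞) = ENNReal.ofReal 2 := by norm_num
  calc 2 * (ENNReal.ofReal X * Z) = (ENNReal.ofReal 2 * ENNReal.ofReal X) * Z := by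
        rw [e4]
        ring
    _ = (ENNReal.ofReal A * ENNReal.ofReal B * ENNReal.ofReal C) * Z := by
        rw [← ENNReal.ofReal_mul (by norm_num), h, ENNReal.ofReal_mul (mul_nonneg hA hB),
          ENNReal.ofReal_mul hA]
    _ = _ := by ring

theorem abs_cube_rpow (y : ℝ) : |y ^ 3| ^ (2 / 3 : ℝ) = y ^ 2 := by
  rw [abs_pow, ← Real.rpow_natCast, ← Real.rpow_mul (abs_nonneg _),
    show ((3 : ℕ) : ℝ) * (2 / 3) = ((2 : ℕ) : ℝ) by norm_num, Real.rpow_natCast, sq_abs]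

theorem fiber (h : ℝ × ℝ × ℝ → ℝ≥0∞) (hh : Measurable h) (s m : ℝ) :
    (∫⁻ a : ℝ, ∫⁻ e : ℝ, Tht h s m a e) =
      ∫⁻ x : ℝ, if 0 < x ∧ 0 < m then h (s, x, m) * ENNReal.ofReal Real.pi else 0 := by
  rcases le_or_gt m 0 with hm | hm
  · simp [Tht, not_lt.mpr hm]
  have hT : Measurable fun p : ℝ × ℝ => Tht h s m p.1 p.2 :=
    (Tht_meas h hh).comp (f := fun p : ℝ × ℝ => ((s, m, p.1, p.2) : ℝ × ℝ × ℝ × ℝ)) (by fun_prop)
  rw [lint_rot _ hT]
  obtain ⟨c, hc, hmc⟩ : ∃ c : ℝ, 0 < c ∧ m = 27 * c ^ 6 := by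
    have hmn : 0 < m / 27 := by linarith
    refine ⟨(m / 27) ^ (1 / 6 : ℝ), by positivity, ?_⟩
    rw [← Real.rpow_natCast, ← Real.rpow_mul hmn.le]
    norm_num
    ring
  have hc6 : (m / 27) ^ (1 / 6 : ℝ) = c := by
    rw [hmc, show 27 * c ^ 6 / 27 = c ^ 6 by ring, ← Real.rpow_natCast, ← Real.rpow_mul hc.le]
    norm_num
  have hsq : Real.sqrt (27 * m) = 27 * c ^ 3 := by
    rw [hmc, show 27 * (27 * c ^ 6) = (27 * c ^ 3) ^ 2 by ring, Real.sqrt_sq (by positivity)]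
  have hm23 : m ^ (-(2 / 3) : ℝ) = (9 * c ^ 4)⁻¹ := by
    rw [hmc, show 27 * c ^ 6 = (3 * c ^ 2) ^ 3 by ring, ← Real.rpow_natCast,
      ← Real.rpow_mul (by positivity),
      show ((3 : ℕ) : ℝ) * -(2 / 3) = -((2 : ℕ) : ℝ) by push_cast; ring,
      Real.rpow_neg (by positivity), Real.rpow_natCast]
    congr 1
    ring
  set H : ℝ → ℝ≥0∞ := fun t => h (s, t / (2 * c), m) with hH
  have hHm : Measurable H := by
    rw [hH]
    exact hh.comp (by fun_prop)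
  have h1 : ∀ p q : ℝ, 2 * Tht h s m (p + q) (p - q) =
      ENNReal.ofReal (1 / (2 * c)) * (ENNReal.ofReal (1 / 3 * |p| ^ (-(2 / 3) : ℝ)) *
        (ENNReal.ofReal (1 / 3 * |q| ^ (-(2 / 3) : ℝ)) *
          H (|p| ^ (2 / 3 : ℝ) + |q| ^ (2 / 3 : ℝ)))) := by
    intro p q
    have e1 : szR (p + q) (p - q) m = (|p| ^ (2 / 3 : ℝ) + |q| ^ (2 / 3 : ℝ)) / (2 * c) := by
      unfold szR
      rw [hc6, show (p + q + (p - q)) / 2 = p by ring, show (p + q - (p - q)) / 2 = q by ring]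
    have e2 : (m * |(p + q) ^ 2 - (p - q) ^ 2| / 4) ^ (-(2 / 3) : ℝ) =
        (9 * c ^ 4)⁻¹ * |p| ^ (-(2 / 3) : ℝ) * |q| ^ (-(2 / 3) : ℝ) := by
      have e3 : m * |(p + q) ^ 2 - (p - q) ^ 2| / 4 = m * |p| * |q| := by
        rw [show (p + q) ^ 2 - (p - q) ^ 2 = 4 * (p * q) by ring, abs_mul, abs_mul,
          abs_of_pos (by norm_num : (0 : ℝ) < 4)]
        ring
      rw [e3, Real.mul_rpow (by positivity) (abs_nonneg _), Real.mul_rpow hm.le (abs_nonneg _),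
        hm23]
    simp only [Tht, hm, if_true]
    rw [e1, e2, hsq, hH]
    refine mul4 _ _ _ _ _ (by positivity) (by positivity) ?_
    field_simp
    ring
  simp only [h1]
  have h2 : ∀ p : ℝ, (∫⁻ q : ℝ, ENNReal.ofReal (1 / (2 * c)) *
      (ENNReal.ofReal (1 / 3 * |p| ^ (-(2 / 3) : ℝ)) *
        (ENNReal.ofReal (1 / 3 * |q| ^ (-(2 / 3) : ℝ)) *
          H (|p| ^ (2 / 3 : ℝ) + |q| ^ (2 / 3 : ℝ))))) =
      ENNReal.ofReal (1 / (2 * c)) * (ENNReal.ofReal (1 / 3 * |p| ^ (-(2 / 3) : ℝ)) *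
        ∫⁻ y : ℝ, H (|p| ^ (2 / 3 : ℝ) + y ^ 2)) := by
    intro p
    rw [lintegral_const_mul' _ _ ENNReal.ofReal_ne_top,
      lintegral_const_mul' _ _ ENNReal.ofReal_ne_top,
      ← lint_cube (fun q => H (|p| ^ (2 / 3 : ℝ) + |q| ^ (2 / 3 : ℝ)))]
    simp only [abs_cube_rpow]
  simp only [h2]
  rw [lintegral_const_mul' _ _ ENNReal.ofReal_ne_top,
    ← lint_cube (fun p => ∫⁻ y : ℝ, H (|p| ^ (2 / 3 : ℝ) + y ^ 2))]
  simp only [abs_cube_rpow]
  rw [lint_polar H hHm, lint_Ioi_pow 1 (by norm_num) (2 * c) (by positivity),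
    ← lintegral_const_mul' _ _ ENNReal.ofReal_ne_top, ← lintegral_indicator measurableSet_Ioi]
  refine lintegral_congr fun x => ?_
  rcases le_or_gt x 0 with hx | hx
  · simp [not_lt.mpr hx]
  rw [indicator_of_mem (mem_Ioi.mpr hx)]
  simp only [hx, hm, and_self, if_true, hH]
  have e5 : 2 * c * x ^ 1 / (2 * c) = x := by
    field_simp
  rw [e5, ← mul_assoc, ← ENNReal.ofReal_mul (by positivity)]
  have e6 : 1 / (2 * c) * (2 * c * (((1 : ℕ) : ℝ) * x ^ (1 - 1))) = 1 := by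
    simp
    field_simp
  rw [e6, ENNReal.ofReal_one, one_mul, mul_comm]

theorem psh : PshStmt := by
  intro h hh
  have hmmm : Measurable fun w : Fin 4 → ℝ => mm w := by
    have : (fun w : Fin 4 → ℝ => mm w) = fun w : Fin 4 → ℝ =>
      -(w 1 ^ 2 * w 2 ^ 2 - 4 * w 0 * w 2 ^ 3 - 4 * w 1 ^ 3 * w 3 - 27 * w 0 ^ 2 * w 3 ^ 2 +
        18 * w 0 * w 1 * w 2 * w 3) := rfl
    rw [this]
    fun_prop
  have hGG : Measurable fun w : Fin 4 → ℝ => GG w := by
    unfold GG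
    fun_prop
  have hP := Psi_meas h hh
  have hT := Tht_meas h hh
  have hset : MeasurableSet {w : Fin 4 → ℝ | w 0 ≠ 0 ∧ 0 < mm w} := by
    have h1 : MeasurableSet {w : Fin 4 → ℝ | w 0 ≠ 0} :=
      (measurableSet_eq_fun (measurable_pi_apply 0) measurable_const).compl
    exact h1.inter (measurableSet_lt measurable_const hmmm)
  have hF : Measurable fun w : Fin 4 → ℝ =>
      if w 0 = 0 then 0 else Psi h (w 1 / (3 * w 0)) (w 0) (GG w) (mm w) := by
    refine Measurable.ite (measurableSet_eq_fun (measurable_pi_apply 0) measurable_const)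
      measurable_const ?_
    exact hP.comp (f := fun w : Fin 4 → ℝ =>
      ((w 1 / (3 * w 0), w 0, GG w, mm w) : ℝ × ℝ × ℝ × ℝ)) (by fun_prop)
  have h1 : (∫⁻ w : Fin 4 → ℝ in {w | w 0 ≠ 0 ∧ 0 < mm w},
        h (w 1 / (3 * w 0), hz w 1 0, mm w)) =
      ∫⁻ w : Fin 4 → ℝ, if w 0 = 0 then 0 else Psi h (w 1 / (3 * w 0)) (w 0) (GG w) (mm w) := by
    rw [← lintegral_indicator hset]
    refine lintegral_congr fun w => ?_
    by_cases h0 : w 0 = 0
    · rw [indicator_of_notMem (fun hw => hw.1 h0), if_pos h0]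
    · rw [if_neg h0]
      by_cases hm : 0 < mm w
      · rw [indicator_of_mem (show w ∈ {w : Fin 4 → ℝ | w 0 ≠ 0 ∧ 0 < mm w} from ⟨h0, hm⟩),
          Psi, if_pos hm, hz_eq w]
      · rw [indicator_of_notMem (fun hw => hm hw.2), Psi, if_neg hm]
  rw [h1, lint_fin4 _ hF]
  have h2 : (∫⁻ a : ℝ, ∫⁻ b : ℝ, ∫⁻ c : ℝ, ∫⁻ d : ℝ,
        if (![a, b, c, d] : Fin 4 → ℝ) 0 = 0 then 0 else
          Psi h ((![a, b, c, d] : Fin 4 → ℝ) 1 / (3 * (![a, b, c, d] : Fin 4 → ℝ) 0))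
            ((![a, b, c, d] : Fin 4 → ℝ) 0) (GG ![a, b, c, d]) (mm ![a, b, c, d])) =
      ∫⁻ a : ℝ, ∫⁻ s : ℝ, ∫⁻ m : ℝ, ∫⁻ e : ℝ, Tht h s m a e := by
    rw [lint_ae, lint_ae (fun a => ∫⁻ s : ℝ, ∫⁻ m : ℝ, ∫⁻ e : ℝ, Tht h s m a e)]
    refine setLIntegral_congr_fun (measurableSet_singleton 0).compl fun a ha => ?_
    have ha0 : a ≠ 0 := ha
    rw [← inner h hh a ha0]
    simp [ha0]
  rw [h2]
  -- bring a inside
  rw [lintegral_lintegral_swap]
  swap
  · refine Measurable.aemeasurable ?_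
    refine msr1 volume (f := fun (p : ℝ × ℝ) (m : ℝ) => ∫⁻ e : ℝ, Tht h p.2 m p.1 e) ?_
    refine msr1 volume (f := fun (p : (ℝ × ℝ) × ℝ) (e : ℝ) => Tht h p.1.2 p.2 p.1.1 e) ?_
    exact hT.comp (f := fun p : ((ℝ × ℝ) × ℝ) × ℝ =>
      ((p.1.1.2, p.1.2, p.1.1.1, p.2) : ℝ × ℝ × ℝ × ℝ)) (by fun_prop)
  have h3 : ∀ s : ℝ, (∫⁻ a : ℝ, ∫⁻ m : ℝ, ∫⁻ e : ℝ, Tht h s m a e) =
      ∫⁻ m : ℝ, ∫⁻ x : ℝ, if 0 < x ∧ 0 < m then h (s, x, m) * ENNReal.ofReal Real.pi else 0 := by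
    intro s
    rw [lintegral_lintegral_swap]
    · exact lintegral_congr fun m => fiber h hh s m
    · refine Measurable.aemeasurable ?_
      refine msr1 volume (f := fun (p : ℝ × ℝ) (e : ℝ) => Tht h s p.2 p.1 e) ?_
      exact hT.comp (f := fun p : (ℝ × ℝ) × ℝ =>
        ((s, p.1.2, p.1.1, p.2) : ℝ × ℝ × ℝ × ℝ)) (by fun_prop)
  simp only [h3]
  have hset2 : MeasurableSet {u : ℝ × ℝ × ℝ | 0 < u.2.1 ∧ 0 < u.2.2} := by
    have m1 : Measurable fun u : ℝ × ℝ × ℝ => u.2.1 := by fun_prop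
    have m2 : Measurable fun u : ℝ × ℝ × ℝ => u.2.2 := by fun_prop
    exact (measurableSet_lt measurable_const m1).inter (measurableSet_lt measurable_const m2)
  have hR : Measurable fun u : ℝ × ℝ × ℝ =>
      if 0 < u.2.1 ∧ 0 < u.2.2 then h u * ENNReal.ofReal Real.pi else 0 := by
    exact Measurable.ite hset2 (by fun_prop) measurable_const
  have h4 : (∫⁻ u : ℝ × ℝ × ℝ in {u | 0 < u.2.1 ∧ 0 < u.2.2},
        h u * ENNReal.ofReal Real.pi) =
      ∫⁻ u : ℝ × ℝ × ℝ,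
        if 0 < u.2.1 ∧ 0 < u.2.2 then h u * ENNReal.ofReal Real.pi else 0 := by
    rw [← lintegral_indicator hset2]
    refine lintegral_congr fun u => ?_
    by_cases hu : 0 < u.2.1 ∧ 0 < u.2.2
    · rw [indicator_of_mem (show u ∈ {u : ℝ × ℝ × ℝ | 0 < u.2.1 ∧ 0 < u.2.2} from hu), if_pos hu]
    · rw [indicator_of_notMem (show u ∉ {u : ℝ × ℝ × ℝ | 0 < u.2.1 ∧ 0 < u.2.2} from hu),
        if_neg hu]
  rw [h4, Measure.volume_eq_prod, lintegral_prod _ hR.aemeasurable]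
  refine lintegral_congr fun s => ?_
  have hRs : Measurable fun p : ℝ × ℝ =>
      if 0 < p.1 ∧ 0 < p.2 then h (s, p.1, p.2) * ENNReal.ofReal Real.pi else 0 :=
    hR.comp (f := fun p : ℝ × ℝ => ((s, p.1, p.2) : ℝ × ℝ × ℝ)) (by fun_prop)
  rw [Measure.volume_eq_prod, lintegral_prod _ hRs.aemeasurable, lintegral_lintegral_swap]
  exact (hRs.comp (f := fun p : ℝ × ℝ => ((p.2, p.1) : ℝ × ℝ)) (by fun_prop)).aemeasurable

end Pool.Agent.LeoG.H11
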